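import Mathlib
import Pool.Agent.R355.CanDeg3
import Pool.Agent.TH167.SH.Conv
import Pool.Agent.TH167.SH.Defs

set_option autoImplicit false

/-!
# Prime divisors with given `C ^ 2` and `K C`: finitely many standard classes for all `s` together

Let `a` and `c ≥ 1` be integers. There is a finite set `S` of pairs (degree, multiset of positive
multiplicities) such that for every algebraically closed field of characteristic zero, for every
number `s ≥ 4` of generic points and for every prime divisor `C` with `C ^ 2 = a`, `K C = c` on the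
blow-up, finitely many quadratic transformations carry `C` to a prime divisor on the blow-up at
other generic points, with the same `h⁰` and `h¹`, whose class is standard and belongs to `S`. In
particular the conjecture, for all prime divisors with `C ^ 2 = a` and `K C = c` and for all `s`, is a
statement on the finitely many classes in `S`.

With `A = max a 0` the degrees in `S` are at most `(3 (A + (2 c + A) ^ 2) + 6 (c + A)) / 2` and there are
at most `9 + 2 c + A` positive multiplicities.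
-/

namespace Pool.Agent.Results.MP_0dccba_ag.FiniteReduction

open MvPolynomial Pool.Agent.TH167 Pool.Agent.TH167.SHDefs

/-- The dimension of `H¹` of the class `(e, w)`, computed from `H⁰`. -/
noncomputable def hOne {K : Type} [Field K] {s : ℕ} (P : Fin s → Fin 2 → K) (e : ℕ)
    (w : Fin s → ℕ) : ℤ := dimL P e w - virtdim e w

/-- The class `(e; u)` is standard: the degree is at least the sum of any three multiplicities. -/
def Standard {s : ℕ} (e : ℕ) (u : Fin s → ℕ) : Prop :=
  ∀ i j l : Fin s, i ≠ j → i ≠ l → j ≠ l → u i + u j + u l ≤ e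

/-- The degree and the multiset of the nonzero multiplicities. -/
def shape {s : ℕ} (e : ℕ) (u : Fin s → ℕ) : ℕ × Multiset ℕ :=
  (e, (Finset.univ.val.map u).filter (· ≠ 0))

theorem result (a c : ℤ) (hc : 1 ≤ c) : ∃ S : Finset (ℕ × Multiset ℕ),
    ∀ (k : Type) [Field k] [CharZero k] [IsAlgClosed k] (s : ℕ), 4 ≤ s →
      ∀ P : Fin s → Fin 2 → k,
        AlgebraicIndependent ℚ (fun ij : Fin s × Fin 2 => P ij.1 ij.2) →
        ∀ (d : ℕ) (w : Fin s → ℕ) (C : MvPolynomial (Fin 3) k), Curve P C d w →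
          inter d w d w = a → interK d w = c →
          ∃ (P1 : Fin s → Fin 2 → k) (e : ℕ) (u : Fin s → ℕ) (G : MvPolynomial (Fin 3) k),
            AlgebraicIndependent ℚ (fun ij : Fin s × Fin 2 => P1 ij.1 ij.2) ∧
            Curve P1 G e u ∧ Relation.ReflTransGen Quadratic (d, w) (e, u) ∧ Standard e u ∧
            inter e u e u = a ∧ interK e u = c ∧
            dimL P1 e u = dimL P d w ∧ hOne P1 e u = hOne P d w ∧ e ≤ d ∧
            2 * (e : ℤ) ≤ 3 * (max a 0 + (2 * c + max a 0) ^ 2) + 6 * (c + max a 0) ∧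
            ((Finset.univ.filter fun j => u j ≠ 0).card : ℤ) ≤ 9 + 2 * c + max a 0 ∧
            shape e u ∈ S := by
  classical
  obtain ⟨A, hA⟩ : ∃ A, A = max a 0 := ⟨_, rfl⟩
  have hA1 : a ≤ A := hA ▸ le_max_left a 0
  have hA0 : 0 ≤ A := hA ▸ le_max_right a 0
  rw [← hA]
  obtain ⟨B, hB⟩ : ∃ B : ℕ, B = (3 * (A + (2 * c + A) ^ 2) + 6 * (c + A)).toNat := ⟨_, rfl⟩
  obtain ⟨N, hN⟩ : ∃ N : ℕ, N = (9 + 2 * c + A).toNat := ⟨_, rfl⟩
  refine ⟨Finset.range (B + 1) ×ˢ (N • (Multiset.range (B + 1))).powerset.toFinset,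
    fun k _ _ _ s hs P hP d w C hC ha hcc => ?_⟩
  obtain ⟨r, rfl⟩ : ∃ r, s = r + 4 := ⟨s - 4, by omega⟩
  obtain ⟨h1, h2, h3⟩ := SH.curve_iff.1 hC
  rw [SH.inter_eq] at ha
  rw [SH.interK_eq] at hcc
  have hne : ¬ (SH.ip d w d w = -1 ∧ SH.kk d w = 1) := fun h0 => by
    rw [h0.2] at hcc
    linarith
  obtain ⟨P1, e, u, G, b1, b2, b3, b4, b5, b6, b7, b8⟩ :=
    Pool.Agent.R355.CanDeg.std_dim d P hP w C h1 h2 h3 hne
  obtain ⟨q1, q2, q3⟩ := SH.quad_inv b5
  simp only at q1 q2 q3
  have hne' : ¬ (SH.ip e u e u = -1 ∧ SH.kk e u = 1) := by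
    rw [q3, q2]
    exact hne
  obtain ⟨f1, f2⟩ := Pool.Agent.R355.CanDeg.red_finite b1 b2 b3 b4 hne' b6 (a := a) (A := A)
    (c := c) (by rw [q3, ha]) hA1 hA0 hc (by rw [q2]; linarith)
  have hdim : dimL P1 e u = dimL P d w := by
    rw [SH.dimL_eq, SH.dimL_eq, b8]
  refine ⟨P1, e, u, G, b1, SH.curve_iff.2 ⟨b2, b3, b4⟩, SH.chain_conv b5, b6,
    by rw [SH.inter_eq, q3, ha], by rw [SH.interK_eq, q2]; exact hcc, hdim, ?_, b7, f1, f2, ?_⟩
  · unfold hOne
    rw [hdim, SH.virtdim_eq, SH.virtdim_eq, q1]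
  · refine Pool.Agent.R355.CanDeg.shape_mem (B := B) (N := N) ?_
      (fun j => SH.van_le b2.ne_zero b3 (b4 j).1) ?_
    · have h4 : (2 * e : ℤ) ≤ (B : ℤ) := by
        rw [hB]
        exact f1.trans (Int.self_le_toNat _)
      omega
    · have h4 : ((Finset.univ.filter fun j => u j ≠ 0).card : ℤ) ≤ (N : ℤ) := by
        rw [hN]
        exact f2.trans (Int.self_le_toNat _)
      exact_mod_cast h4

end Pool.Agent.Results.MP_0dccba_ag.FiniteReduction
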