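import Pool.Agent.R66.BX.Prime5

set_option autoImplicit false

/-!
# Prime divisors with five arbitrary multiplicities: `h¹ = 0` outside of a short window of degrees

Let `m ≥ 1`, let `v 1, …, v r ≤ m` be any number of multiplicities, and let `a 1, …, a 5` be five
arbitrary ones. Let `α` be the least number with `a i + a j ≤ α + 1` for `i ≠ j` and
`a 1 + … + a 5 ≤ 2 α + 1`. Let `C` be a prime divisor of degree `e` with these multiplicities on the
blow-up of the plane at `r + 5` generic points over a field of characteristic zero. Then `e ≥ α`, and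
`h¹(C) = 0` if `e ≥ α + 2 m ^ 2 + 4 m + 3`. The length of the window depends neither on the number of
the points nor on the five arbitrary multiplicities.
-/

namespace Pool.Agent.Results.MP_0dccba_ag.PrimeShortWindow

open MvPolynomial Pool.Agent.TH167 Pool.Agent.TH167.SHDefs

/-- The dimension of `H¹` of the class `(e, w)` of a curve, computed from `H⁰`. -/
noncomputable def hOne {K : Type} [Field K] {s : ℕ} (P : Fin s → Fin 2 → K) (e : ℕ)
    (w : Fin s → ℕ) : ℤ := dimL P e w - virtdim e w

/-- **Main result.** -/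
theorem result (K : Type) [Field K] [CharZero K] (m r : ℕ) (hm : 1 ≤ m)
    (P : Fin (r + 5) → Fin 2 → K)
    (hP : AlgebraicIndependent ℚ (fun ij : Fin (r + 5) × Fin 2 => P ij.1 ij.2))
    (v : Fin r → ℕ) (hv : ∀ i, v i ≤ m) (a : Fin 5 → ℕ) (α : ℕ)
    (hα : IsLeast {x : ℕ | (∀ i j, i ≠ j → a i + a j ≤ x + 1) ∧ ∑ i, a i ≤ 2 * x + 1} α)
    (e : ℕ) (G : MvPolynomial (Fin 3) K) (hG : Curve P G e (Fin.append v a)) :
    α ≤ e ∧ (α + (2 * m ^ 2 + 4 * m + 3) ≤ e → hOne P e (Fin.append v a) = 0) := by
  obtain ⟨h1, h2⟩ := Pool.Agent.R66.BX.Prime5.main hm hP hv a hα hG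
  refine ⟨h1, fun h => ?_⟩
  unfold hOne
  rw [h2 h, sub_self]

end Pool.Agent.Results.MP_0dccba_ag.PrimeShortWindow
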